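import Pool.Agent.Work.MP_33747a_co.Main

set_option autoImplicit false
set_option linter.unusedSectionVars false

namespace Pool.Agent.Work.MP_33747a_co.Bar

open Finset Real

section bound
variable {N : ℕ} {ι : Type} [Fintype ι] [DecidableEq ι]

/-- matching generating function of a clique with vertex weight `A` and edge weight `W` -/
noncomputable def tau (A W : ℝ) : ℕ → ℝ
  | 0 => 1
  | 1 => A
  | m + 2 => A * tau A W (m + 1) + (m + 1) * W * tau A W m

theorem tau_succ (A W : ℝ) (m : ℕ) : tau A W (m + 1) = A * tau A W m + m * W * tau A W (m - 1) := by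
  cases m with
  | zero => simp [tau]
  | succ m => rw [tau]; push_cast; simp

theorem one_le_tau {A W : ℝ} (hA : 1 ≤ A) (hW : 0 ≤ W) (m : ℕ) : 1 ≤ tau A W m := by
  induction m using Nat.strong_induction_on with
  | _ m ih =>
    cases m with
    | zero => simp [tau]
    | succ m =>
      rw [tau_succ]
      have h1 := ih m (Nat.lt_succ_self m)
      have h2 := ih (m - 1) (by omega)
      have h3 : 0 ≤ (m : ℝ) * W * tau A W (m - 1) := by positivity
      nlinarith

def cn (bl : Fin N → Option ι) (S : Finset (Fin N)) (o : Option ι) : ℕ :=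
  (S.filter fun i => bl i = o).card

theorem cn_erase (bl : Fin N → Option ι) {S : Finset (Fin N)} {u : Fin N} (hu : u ∈ S)
    (o : Option ι) : cn bl (S.erase u) o = if bl u = o then cn bl S o - 1 else cn bl S o := by
  unfold cn
  rw [filter_erase]
  split_ifs with h
  · rw [card_erase_of_mem (mem_filter.2 ⟨hu, h⟩)]
  · rw [erase_eq_of_notMem]
    intro h'
    exact h (mem_filter.1 h').2

theorem cn_pos (bl : Fin N → Option ι) {S : Finset (Fin N)} {u : Fin N} (hu : u ∈ S) :
    0 < cn bl S (bl u) := card_pos.2 ⟨u, mem_filter.2 ⟨hu, rfl⟩⟩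

/-- the weights: cliques `b` with inner weight `w b`, joined to the barrier with weight `c b` -/
noncomputable def wt (w c : ι → ℝ) : Option ι → Option ι → ℝ
  | none, none => 0
  | some b, none => c b
  | none, some b => c b
  | some b, some b' => if b = b' then w b else 0

noncomputable def bar (u : ℝ) (a : ℕ) : ℝ := (a.factorial : ℝ) / u ^ a * exp u

theorem one_le_bar {u : ℝ} (hu : 0 < u) (a : ℕ) : 1 ≤ bar u a := by
  have h := Real.pow_div_factorial_le_exp u hu.le a
  have h1 : (0 : ℝ) < a.factorial := by exact_mod_cast a.factorial_pos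
  have h2 : 0 < u ^ a := by positivity
  unfold bar
  rw [div_le_iff₀ h1] at h
  rw [div_mul_eq_mul_div, le_div_iff₀ h2]
  linarith

theorem bar_pred {u : ℝ} (hu : 0 < u) (a : ℕ) : (a : ℝ) * bar u (a - 1) ≤ u * bar u a := by
  cases a with
  | zero =>
    have := one_le_bar hu 0
    simp only [Nat.cast_zero, zero_mul]
    positivity
  | succ a =>
    unfold bar
    rw [Nat.add_sub_cancel, Nat.factorial_succ]
    push_cast
    apply le_of_eq
    rw [pow_succ]
    field_simp

theorem HS_le (B : Matrix (Fin N) (Fin N) ℝ) (hB : ∀ i j, B i j = B j i) (bl : Fin N → Option ι)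
    (w c : ι → ℝ) (hw : ∀ b, 0 ≤ w b) (hc : ∀ b, 0 ≤ c b)
    (hW : ∀ i j, i ≠ j → B i j = wt w c (bl i) (bl j)) {x u : ℝ} (hx : 0 < x) (hu : 0 < u) :
    ∀ (s : ℕ) (S : Finset (Fin N)), S.card = s → ∀ k, x ^ k * HS B S k ≤
      bar u (cn bl S none) * ∏ b, tau (1 + x * u * c b) (x * w b) (cn bl S (some b)) := by
  have hA : ∀ b, 1 ≤ 1 + x * u * c b := fun b => by
    have := hc b
    have : 0 ≤ x * u * c b := by positivity
    linarith
  have hT : ∀ b m, 1 ≤ tau (1 + x * u * c b) (x * w b) m := fun b m =>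
    one_le_tau (hA b) (mul_nonneg hx.le (hw b)) m
  intro s
  induction s using Nat.strong_induction_on with
  | _ s ih =>
    intro S hS k
    have h1 : 1 ≤ bar u (cn bl S none) * ∏ b, tau (1 + x * u * c b) (x * w b) (cn bl S (some b)) :=
      one_le_mul_of_one_le_of_one_le (one_le_bar hu _) (Finset.prod_induction _ (fun t => 1 ≤ t)
        (fun _ _ => one_le_mul_of_one_le_of_one_le) le_rfl fun b _ => hT b _)
    cases k with
    | zero => simpa [HS_zero] using h1
    | succ k =>
      by_cases hex : ∃ v ∈ S, ∃ b, bl v = some b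
      swap
      · have hn : ∀ v ∈ S, bl v = none := by
          intro v hv
          cases h : bl v with
          | none => rfl
          | some b => exact absurd ⟨v, hv, b, h⟩ hex
        rw [HS_const B hB 0 _ S rfl (fun i hi j hj hij => by rw [hW i j hij, hn i hi, hn j hj]; rfl)]
        simp only [zero_pow (Nat.succ_ne_zero k), zero_mul, mul_zero]
        linarith
      obtain ⟨v, hv, b, hb⟩ := hex
      have hs : 0 < s := hS ▸ card_pos.2 ⟨v, hv⟩
      set S' := S.erase v with hS'
      have hc' : S'.card = s - 1 := by rw [hS', card_erase_of_mem hv, hS]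
      set P : ℝ := ∏ b' ∈ univ.erase b, tau (1 + x * u * c b') (x * w b') (cn bl S (some b')) with hP
      have hP0 : 0 ≤ P := prod_nonneg fun b' _ => zero_le_one.trans (hT b' _)
      set a := cn bl S none with ha
      set m := cn bl S' (some b) with hm
      have hm1 : cn bl S (some b) = m + 1 := by
        have h2 := cn_pos bl hv
        rw [hm, hS', cn_erase bl hv, if_pos hb]
        rw [hb] at h2
        omega
      have ha' : cn bl S' none = a := by
        rw [hS', cn_erase bl hv, if_neg (by rw [hb]; simp)]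
      have ho : ∀ b' ∈ univ.erase b, cn bl S' (some b') = cn bl S (some b') := by
        intro b' hb'
        rw [hS', cn_erase bl hv, if_neg (by rw [hb]; simpa using (ne_of_mem_erase hb').symm)]
      have e1 : x ^ (k + 1) * HS B S' (k + 1) ≤
          bar u a * (tau (1 + x * u * c b) (x * w b) m * P) := by
        have := ih (s - 1) (by omega) S' hc' (k + 1)
        rwa [ha', ← mul_prod_erase univ _ (mem_univ b), prod_congr rfl
          (fun b' hb' => by rw [ho b' hb'])] at this
      have e2 : ∀ z ∈ S', B v z * (x ^ k * HS B (S'.erase z) k) ≤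
          (if bl z = none then c b * (bar u (a - 1) * (tau (1 + x * u * c b) (x * w b) m * P))
            else 0) +
          (if bl z = some b then w b * (bar u a * (tau (1 + x * u * c b) (x * w b) (m - 1) * P))
            else 0) := by
        intro z hz
        have h3 := ih (s - 1 - 1) (by omega) (S'.erase z) (by rw [card_erase_of_mem hz, hc']) k
        rw [← mul_prod_erase univ _ (mem_univ b)] at h3
        rw [hW v z (ne_of_mem_erase hz).symm, hb]
        cases hz' : bl z with
        | none =>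
          rw [cn_erase bl hz, cn_erase bl hz, if_pos hz', if_neg (by rw [hz']; simp), ha',
            prod_congr rfl (fun b' hb' => by
              rw [cn_erase bl hz, if_neg (by rw [hz']; simp), ho b' hb'])] at h3
          simp only [wt, if_true, reduceCtorEq, if_false, add_zero]
          exact mul_le_mul_of_nonneg_left h3 (hc b)
        | some b'' =>
          by_cases hbb : b = b''
          · subst hbb
            rw [cn_erase bl hz, cn_erase bl hz, if_neg (by rw [hz']; simp), if_pos hz', ha',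
              prod_congr rfl (fun b' hb' => by
                rw [cn_erase bl hz, if_neg (by rw [hz']; simpa using (ne_of_mem_erase hb').symm),
                  ho b' hb'])] at h3
            simp only [wt, if_true, reduceCtorEq, if_false, zero_add]
            exact mul_le_mul_of_nonneg_left h3 (hw b)
          · simp [wt, hbb, Ne.symm hbb]
      have e3 := sum_le_sum e2
      rw [sum_add_distrib, ← sum_filter, ← sum_filter, sum_const, sum_const, nsmul_eq_mul,
        nsmul_eq_mul] at e3
      have e4 : ((S'.filter fun z => bl z = none).card : ℝ) = a := by rw [← ha']; rfl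
      have e5 : ((S'.filter fun z => bl z = some b).card : ℝ) = m := by rw [hm]; rfl
      rw [e4, e5] at e3
      have e6 : x ^ (k + 1) * ∑ z ∈ S', B v z * HS B (S'.erase z) k =
          x * ∑ z ∈ S', B v z * (x ^ k * HS B (S'.erase z) k) := by
        rw [mul_sum, mul_sum]
        exact sum_congr rfl fun z _ => by ring
      rw [HS_rec B hB S hv k, ← mul_prod_erase univ _ (mem_univ b), hm1, tau_succ, mul_add, e6]
      have e7 := bar_pred hu a
      have e8 : 0 ≤ x * c b * (tau (1 + x * u * c b) (x * w b) m * P) := by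
        have := hc b
        have := zero_le_one.trans (hT b m)
        positivity
      have e9 := mul_le_mul_of_nonneg_left e3 hx.le
      have e10 := mul_le_mul_of_nonneg_left e7 e8
      rw [← hP]
      nlinarith

end bound

section build
variable {T r : ℕ} [NeZero T]

abbrev VV (T r : ℕ) : Type := ZMod T ⊕ (ZMod T × Fin 3) ⊕ (Fin r × Bool)

/-- a perfect matching: vertex `q` of every triangle goes to the barrier, shifted by `s` -/
def fb (s : ZMod T) (q : Fin 3) : VV T r → VV T r
  | Sum.inl x => Sum.inr (Sum.inl (x - s, q))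
  | Sum.inr (Sum.inl p) => if p.2 = q then Sum.inl (p.1 + s) else Sum.inr (Sum.inl (p.1, -p.2 - q))
  | Sum.inr (Sum.inr p) => Sum.inr (Sum.inr (p.1, !p.2))

theorem third : ∀ m q : Fin 3, m ≠ q → -m - q ≠ q ∧ -m - q ≠ m := by decide

theorem fb_invol (s : ZMod T) (q : Fin 3) (x : VV T r) : fb s q (fb s q x) = x := by
  rcases x with x | ⟨t, m⟩ | ⟨j, b⟩
  · simp [fb]
  · by_cases h : m = q
    · simp [fb, h]
    · simp [fb, h, (third m q h).1]
  · simp [fb]

theorem fb_ne (s : ZMod T) (q : Fin 3) (x : VV T r) : fb s q x ≠ x := by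
  rcases x with x | ⟨t, m⟩ | ⟨j, b⟩
  · simp [fb]
  · by_cases h : m = q
    · simp [fb, h]
    · simp [fb, h, (third m q h).2]
  · simp [fb]

def blv : VV T r → Option (ZMod T ⊕ Fin r)
  | Sum.inl _ => none
  | Sum.inr (Sum.inl p) => some (Sum.inl p.1)
  | Sum.inr (Sum.inr p) => some (Sum.inr p.1)

theorem third_sum : ∀ m m' : Fin 3, m ≠ m' →
    (univ.filter fun q : Fin 3 => m ≠ q ∧ -m - q = m').card = 1 := by decide

theorem barrier (n : ℕ) (hn : n = 2 * T + r) : ∃ B ∈ Psi n, ∀ (k : ℕ) (x u : ℝ), 0 < x → 0 < u →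
    x ^ k * haf k B ≤ bar u T * (tau (1 + x * u * (1 / (3 * T))) (x * (1 / 3)) 3 ^ T * (1 + x) ^ r) := by
  have hT : (0 : ℝ) < T := Nat.cast_pos.2 (Nat.pos_of_ne_zero (NeZero.ne T))
  obtain ⟨e⟩ : Nonempty (Fin (2 * n) ≃ VV T r) :=
    Fintype.card_eq.1 (by simp [hn, ZMod.card]; ring)
  let B' : VV T r → VV T r → ℝ := fun x y =>
    ∑ q : ZMod T × Fin 3, 1 / (3 * (T : ℝ)) * (if fb q.1 q.2 x = y then 1 else 0)
  have hsym : ∀ x y, B' x y = B' y x := by
    intro x y
    refine sum_congr rfl fun q _ => ?_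
    congr 1
    refine if_congr ?_ rfl rfl
    constructor <;> rintro rfl <;> exact fb_invol _ _ _
  let w : ZMod T ⊕ Fin r → ℝ := Sum.elim (fun _ => 1 / 3) fun _ => 1
  let c : ZMod T ⊕ Fin r → ℝ := Sum.elim (fun _ => 1 / (3 * (T : ℝ))) fun _ => 0
  have h12 : ∀ x p, B' (Sum.inl x) (Sum.inr (Sum.inl p)) = 1 / (3 * (T : ℝ)) := by
    intro x p
    simp only [B', ← mul_sum]
    rw [sum_eq_single (x - p.1, p.2)]
    · simp [fb]
    · intro q _ hq
      rw [if_neg]
      simp only [fb, Sum.inr.injEq, Sum.inl.injEq]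
      rintro rfl
      exact hq (by simp)
    · simp
  have h13 : ∀ x p, B' (Sum.inl x) (Sum.inr (Sum.inr p)) = 0 := by
    intro x p
    simp [B', fb]
  have h23 : ∀ p p', B' (Sum.inr (Sum.inr p')) (Sum.inr (Sum.inl p)) = 0 := by
    intro p p'
    simp [B', fb]
  have hB' : ∀ x y, x ≠ y → B' x y = wt w c (blv x) (blv y) := by
    intro x y hxy
    rcases x with x | ⟨t, m⟩ | ⟨j, b⟩ <;> rcases y with y | ⟨t', m'⟩ | ⟨j', b'⟩
    · simp [B', fb, blv, wt]
    · rw [h12]; simp [blv, wt, c]
    · rw [h13]; simp [blv, wt, c]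
    · rw [hsym, h12]; simp [blv, wt, c]
    · by_cases ht : t = t'
      · subst ht
        have hm : m ≠ m' := fun h => hxy (by rw [h])
        have h3 : ∀ s : ZMod T, ∑ q : Fin 3, (if fb s q (Sum.inr (Sum.inl (t, m)) : VV T r) =
            Sum.inr (Sum.inl (t, m')) then (1 : ℝ) else 0) = 1 := by
          intro s
          have h4 := third_sum m m' hm
          rw [card_filter] at h4
          have h5 : ((∑ q : Fin 3, if m ≠ q ∧ -m - q = m' then 1 else 0 : ℕ) : ℝ) = 1 := by
            rw [h4]; simp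
          refine Eq.trans ?_ h5
          push_cast
          refine sum_congr rfl fun q _ => ?_
          by_cases h : m = q <;> simp [fb, h]
        simp only [B', ← mul_sum]
        rw [Fintype.sum_prod_type]
        simp only [h3, sum_const, card_univ, ZMod.card, nsmul_eq_mul, blv, wt, w, if_true,
          Sum.elim_inl]
        field_simp
      · have h3 : ∀ q : ZMod T × Fin 3, fb q.1 q.2 (Sum.inr (Sum.inl (t, m)) : VV T r) ≠
            Sum.inr (Sum.inl (t', m')) := by
          intro q
          by_cases h : m = q.2 <;> simp [fb, h, ht]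
        simp [B', h3, blv, wt, ht]
    · rw [hsym, h23]; simp [blv, wt]
    · rw [hsym, h13]; simp [blv, wt, c]
    · rw [h23]; simp [blv, wt]
    · by_cases hj : j = j'
      · subst hj
        have hb : (!b) = b' := by
          have : b ≠ b' := fun h => hxy (by rw [h])
          revert this; cases b <;> cases b' <;> simp
        simp only [B', fb, hb, if_true, sum_const, card_univ, Fintype.card_prod, ZMod.card,
          Fintype.card_fin, nsmul_eq_mul, blv, wt, w, Sum.elim_inr]
        push_cast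
        field_simp
      · simp [B', fb, blv, wt, hj]
  refine ⟨Matrix.of fun i j => B' (e i) (e j), ?_, fun k x u hx hu => ?_⟩
  · have : (Matrix.of fun i j => B' (e i) (e j)) = ∑ q : ZMod T × Fin 3, (1 / (3 * (T : ℝ))) •
        (Matrix.of fun i j => if e.symm (fb q.1 q.2 (e i)) = j then (1 : ℝ) else 0) := by
      ext i j
      simp only [B', Matrix.of_apply, Matrix.sum_apply, Matrix.smul_apply, smul_eq_mul,
        Equiv.symm_apply_eq]
    rw [this]
    refine (convex_convexHull ℝ _).sum_mem (fun _ _ => by positivity) ?_ fun q _ =>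
      subset_convexHull ℝ _ ⟨fun i => e.symm (fb q.1 q.2 (e i)), ?_, ?_, rfl⟩
    · simp only [sum_const, card_univ, Fintype.card_prod, Fintype.card_fin, ZMod.card,
        nsmul_eq_mul]
      push_cast
      field_simp
    · intro i
      simp [fb_invol]
    · intro i h
      rw [Equiv.symm_apply_eq] at h
      exact fb_ne _ _ _ h
  · have hcn : ∀ o, cn (fun i => blv (e i)) univ o =
        ∑ x : VV T r, if blv x = o then 1 else 0 := by
      intro o
      unfold cn
      rw [card_filter, e.sum_comp (fun x => if blv x = o then 1 else 0)]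
    have c0 : cn (fun i => blv (e i)) univ none = T := by
      rw [hcn]; simp [Fintype.sum_sum_type, blv, ZMod.card]
    have c1 : ∀ t, cn (fun i => blv (e i)) univ (some (Sum.inl t)) = 3 := by
      intro t
      rw [hcn, Fintype.sum_sum_type, Fintype.sum_sum_type, Fintype.sum_prod_type]
      simp [blv]
    have c2 : ∀ j, cn (fun i => blv (e i)) univ (some (Sum.inr j)) = 2 := by
      intro j
      rw [hcn, Fintype.sum_sum_type, Fintype.sum_sum_type, Fintype.sum_prod_type,
        Fintype.sum_prod_type]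
      simp [blv]
    have h := HS_le (Matrix.of fun i j => B' (e i) (e j)) (fun i j => hsym _ _)
      (fun i => blv (e i)) w c (by rintro (t | j) <;> simp [w]) (by rintro (t | j) <;> simp [c])
      (fun i j hij => hB' _ _ (e.injective.ne hij)) hx hu _ univ rfl k
    rw [c0, Fintype.prod_sum_type] at h
    simp only [c1, c2, w, c, Sum.elim_inl, Sum.elim_inr, prod_const, card_univ, ZMod.card,
      Fintype.card_fin] at h
    have h2 : tau (1 + x * u * 0) (x * 1) 2 = 1 + x := by simp [tau]
    rwa [h2, ← haf_eq] at h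

end build

section analysis

theorem log_fact_le (m : ℕ) : log (m.factorial : ℝ) ≤ 1 + log (m + 1) - negMulLog m - m := by
  have key : ∀ m : ℕ, log ((m + 1).factorial : ℝ) ≤
      1 + log (m + 1) + (m + 1) * log (m + 1) - (m + 1) := by
    intro m
    induction m with
    | zero => simp
    | succ m ih =>
      have h0 : (0 : ℝ) < m + 1 := by positivity
      have h1 : (0 : ℝ) < m + 1 + 1 := by positivity
      have h2 := Real.log_le_sub_one_of_pos (div_pos h0 h1)
      rw [Real.log_div h0.ne' h1.ne'] at h2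
      have h3 : ((m : ℝ) + 1 + 1) * ((m + 1) / (m + 1 + 1) - 1) = -1 := by field_simp; ring
      have h4 := mul_le_mul_of_nonneg_left h2 h1.le
      rw [Nat.factorial_succ (m + 1), Nat.cast_mul, Real.log_mul (by positivity) (by positivity)]
      push_cast at ih ⊢
      nlinarith
  cases m with
  | zero => simp
  | succ m =>
    have h := key m
    have h1 : log ((m : ℝ) + 1) ≤ log ((m : ℝ) + 1 + 1) :=
      Real.log_le_log (by positivity) (by linarith)
    unfold negMulLog
    push_cast at h ⊢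
    linarith

theorem le_log_fact (m : ℕ) (hm : 0 < m) : m * log m - m ≤ log (m.factorial : ℝ) := by
  have h0 : (0 : ℝ) < m := by exact_mod_cast hm
  have h1 : (0 : ℝ) < m.factorial := by exact_mod_cast m.factorial_pos
  have h := Real.log_le_log (by positivity) (Real.pow_div_factorial_le_exp (m : ℝ) h0.le m)
  rw [Real.log_div (by positivity) h1.ne', Real.log_pow, Real.log_exp] at h
  linarith

theorem mm_fact (k d : ℕ) (hk : 1 ≤ k) :
    mm (2 * k + d) k * (d.factorial * (2 ^ k * k.factorial)) = (2 * k + d).factorial := by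
  have h1 := Nat.add_choose_mul_factorial_mul_factorial d (2 * k)
  have h2 := Nat.factorial_eq_mul_doubleFactorial (2 * k - 1)
  rw [show 2 * k - 1 + 1 = 2 * k by omega, Nat.doubleFactorial_two_mul] at h2
  unfold mm
  rw [add_comm (2 * k) d, ← h1, h2]
  ring

/-- the exponent that has to be positive -/
noncomputable def gap (x v p : ℝ) : ℝ :=
  p * (log x - 1) + 2 * negMulLog (1 - p) + negMulLog p -
    (-1 + v - log v + log (tau (1 + x * v / 3) (x * (1 / 3)) 3)) / 2

theorem gap_ge {x v p p1 p2 δ : ℝ} (h0 : 0 ≤ p1) (h1 : p1 ≤ p) (h2 : p ≤ p2) (h3 : p2 ≤ 1)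
    (h12 : p1 < p2) (g1 : δ ≤ gap x v p1) (g2 : δ ≤ gap x v p2) : δ ≤ gap x v p := by
  obtain ⟨s, hs0, hs1, rfl⟩ : ∃ s : ℝ, 0 ≤ s ∧ s ≤ 1 ∧ p = (1 - s) * p1 + s * p2 := by
    have h : 0 < p2 - p1 := by linarith
    refine ⟨(p - p1) / (p2 - p1), div_nonneg (by linarith) h.le, (div_le_one h).2 (by linarith), ?_⟩
    field_simp
    ring
  have c1 := Real.concaveOn_negMulLog.2 (x := p1) (y := p2) h0 (h0.trans h12.le)
    (sub_nonneg.2 hs1) hs0 (by ring)
  have c2 := Real.concaveOn_negMulLog.2 (x := 1 - p1) (y := 1 - p2)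
    (sub_nonneg.2 (h12.le.trans h3)) (sub_nonneg.2 h3) (sub_nonneg.2 hs1) hs0 (by ring)
  simp only [smul_eq_mul] at c1 c2
  rw [show (1 - s) * (1 - p1) + s * (1 - p2) = 1 - ((1 - s) * p1 + s * p2) by ring] at c2
  have a1 := mul_le_mul_of_nonneg_left g1 (sub_nonneg.2 hs1)
  have a2 := mul_le_mul_of_nonneg_left g2 hs0
  unfold gap at a1 a2 ⊢
  nlinarith

theorem log_le_lin {z : ℝ} (hz : 0 < z) : log z ≤ 11 + z / 100000 := by
  have h := Real.log_le_sub_one_of_pos (show 0 < z / 100000 by positivity)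
  rw [Real.log_div hz.ne' (by norm_num), show (100000 : ℝ) = 2 ^ 5 * 5 ^ 5 by norm_num,
    Real.log_mul (by norm_num) (by norm_num), Real.log_pow, Real.log_pow] at h
  have := Real.log_two_lt_d9
  have := Real.log_five_lt_d9
  push_cast at h
  linarith

theorem from_gap (n k : ℕ) (hn : 200000 ≤ n) (hk1 : 1 ≤ k) (hk : k ≤ n) {x v : ℝ} (hx : 1 ≤ x)
    (hx' : x ≤ 10000) (hv : 0 < v)
    (hL : 0 ≤ -1 + v - log v + log (tau (1 + x * v / 3) (x * (1 / 3)) 3))
    (hg : 1 / 3000 ≤ gap x v ((k : ℝ) / n)) :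
    ∃ B ∈ Psi n, haf k B < exp (50 - n / 4000) * haf k (J n) := by
  obtain ⟨T, r, hr, hT⟩ : ∃ T r, r ≤ 1 ∧ n = 2 * T + r := ⟨n / 2, n % 2, by omega, by omega⟩
  have : NeZero T := ⟨by omega⟩
  have hT0 : (0 : ℝ) < T := Nat.cast_pos.2 (by omega)
  have hn' : (200000 : ℝ) ≤ n := by exact_mod_cast hn
  have hn0 : (0 : ℝ) < n := by linarith
  have hk0 : (0 : ℝ) ≤ k := Nat.cast_nonneg k
  have hx0 : 0 < x := by linarith
  have hTn : 2 * (T : ℝ) ≤ n := by exact_mod_cast (show 2 * T ≤ n by omega)
  have hkn : (k : ℝ) ≤ n := by exact_mod_cast hk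
  obtain ⟨B, hB, h⟩ := barrier (T := T) (r := r) n hT
  refine ⟨B, hB, lt_of_mul_lt_mul_left ((h k x (v * T) hx0 (by positivity)).trans_lt ?_)
    (pow_pos hx0 k).le⟩
  rw [show x * (v * T) * (1 / (3 * T)) = x * v / 3 by field_simp]
  set τ := tau (1 + x * v / 3) (x * (1 / 3)) 3 with hτ
  have hτ1 : 1 ≤ τ := one_le_tau (by have : 0 ≤ x * v / 3 := by positivity
                                     linarith) (by positivity) 3
  have hτ0 : 0 < τ := by linarith
  have hb0 : 0 < bar (v * T) T := zero_lt_one.trans_le (one_le_bar (by positivity) T)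
  obtain ⟨d, hd⟩ : ∃ d, 2 * n = 2 * k + d := ⟨2 * n - 2 * k, by omega⟩
  have hd' : (d : ℝ) = 2 * n - 2 * k := by
    have : ((2 * n : ℕ) : ℝ) = ((2 * k + d : ℕ) : ℝ) := by rw [hd]
    push_cast at this
    linarith
  have hm0 : (0 : ℝ) < mm (2 * n) k := mm_pos (by omega)
  have h2n : (0 : ℝ) < 2 * n - 1 := by linarith
  rw [haf_J, ← Real.log_lt_log_iff (by positivity) (by positivity)]
  have l1 : log (bar (v * T) T) = log (T.factorial : ℝ) - T * (log v + log T) + v * T := by
    unfold bar
    rw [Real.log_mul (by positivity) (by positivity), Real.log_div (by positivity) (by positivity),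
      Real.log_pow, Real.log_mul hv.ne' hT0.ne', Real.log_exp]
  have l2 : log ((1 + x) ^ r) ≤ 12 := by
    have a1 := log_le_lin (show 0 < 1 + x by linarith)
    have a2 : 0 ≤ log (1 + x) := Real.log_nonneg (by linarith)
    have a3 : (r : ℝ) ≤ 1 := by exact_mod_cast hr
    rw [Real.log_pow]
    nlinarith
  have l3 : log (mm (2 * n) k : ℝ) = log ((2 * n).factorial : ℝ) - log (d.factorial : ℝ) -
      k * log 2 - log (k.factorial : ℝ) := by
    have a1 := mm_fact k d hk1
    rw [← hd] at a1
    rw [← a1]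
    push_cast
    rw [Real.log_mul hm0.ne' (by positivity), Real.log_mul (by positivity) (by positivity),
      Real.log_mul (by positivity) (by positivity), Real.log_pow]
    ring
  have l4 : -log (2 * n) ≤ log (1 / (2 * (n : ℝ) - 1)) := by
    rw [one_div, Real.log_inv]
    exact neg_le_neg (Real.log_le_log h2n (by linarith))
  have l5 := mul_le_mul_of_nonneg_left l4 (Nat.cast_nonneg (α := ℝ) k)
  have f1 := log_fact_le T
  have f2 := log_fact_le d
  have f3 := log_fact_le k
  have f4 := le_log_fact (2 * n) (by omega)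
  have g1 := log_le_lin (show (0 : ℝ) < T + 1 by positivity)
  have g2 := log_le_lin (show (0 : ℝ) < d + 1 by positivity)
  have g3 := log_le_lin (show (0 : ℝ) < k + 1 by positivity)
  have l6 : log (2 * (n : ℝ)) = log 2 + log n := Real.log_mul (by norm_num) hn0.ne'
  have n1 : negMulLog (k : ℝ) = -(k * log n) + n * negMulLog ((k : ℝ) / n) := by
    have a1 := Real.negMulLog_mul (n : ℝ) ((k : ℝ) / n)
    rw [mul_div_cancel₀ _ hn0.ne'] at a1
    rw [a1]
    congr 1
    unfold negMulLog
    field_simp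
  have n2 : negMulLog (d : ℝ) = -(d * log (2 * n)) + 2 * n * negMulLog (1 - (k : ℝ) / n) := by
    have a0 : 2 * (n : ℝ) * (1 - (k : ℝ) / n) = d := by rw [hd']; field_simp
    have a1 := Real.negMulLog_mul (2 * n : ℝ) (1 - (k : ℝ) / n)
    rw [a0] at a1
    rw [a1, ← a0]
    congr 1
    unfold negMulLog
    ring
  have n3 : negMulLog (T : ℝ) = -(T * log T) := by unfold negMulLog; ring
  have hg' := mul_le_mul_of_nonneg_left hg hn0.le
  unfold gap at hg'
  rw [← hτ] at hg'
  have a4 : (n : ℝ) * ((k : ℝ) / n * (log x - 1) + 2 * negMulLog (1 - (k : ℝ) / n) +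
      negMulLog ((k : ℝ) / n) - (-1 + v - log v + log τ) / 2) =
      k * (log x - 1) + 2 * n * negMulLog (1 - (k : ℝ) / n) + n * negMulLog ((k : ℝ) / n) -
        n * ((-1 + v - log v + log τ) / 2) := by field_simp
  rw [a4] at hg'
  have a5 := mul_le_mul_of_nonneg_right hTn (div_nonneg hL zero_le_two)
  rw [Real.log_mul hb0.ne' (by positivity), Real.log_mul (by positivity) (by positivity),
    Real.log_mul (by positivity) (by positivity), Real.log_mul (exp_pos _).ne' (by positivity),
    Real.log_mul (by positivity) hm0.ne', Real.log_exp,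
    Real.log_pow τ, Real.log_pow x, Real.log_pow (1 / (2 * (n : ℝ) - 1)), l1, l3]
  push_cast at f4
  rw [n1] at f3
  rw [n2, hd'] at f2
  rw [n3] at f1
  rw [hd'] at g2
  rw [l6] at f2 f4 l5
  linarith

theorem log_le_near {z s : ℝ} (hz : 0 < z) (hs : 0 < s) : log z ≤ log s + (z / s - 1) := by
  have h := Real.log_le_sub_one_of_pos (div_pos hz hs)
  rw [Real.log_div hz.ne' hs.ne'] at h
  linarith

theorem log_smooth (a b c : ℕ) : log ((2 : ℝ) ^ a * 3 ^ b * 5 ^ c) =
    a * log 2 + b * log 3 + c * log 5 := by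
  rw [Real.log_mul (by positivity) (by positivity), Real.log_mul (by positivity) (by positivity),
    Real.log_pow, Real.log_pow, Real.log_pow]

theorem logs : log (900 : ℝ) = 2 * log 2 + 2 * log 3 + 2 * log 5 ∧
    log (1 / 45 : ℝ) = -(2 * log 3 + log 5) ∧ log (21 / 500 : ℝ) ≤ -(3 * log 2 + log 3) + 1 / 125 ∧
    log (1 / 40 : ℝ) = -(3 * log 2 + log 5) ∧ log (10000 : ℝ) = 4 * log 2 + 4 * log 5 ∧
    log (1 / 200 : ℝ) = -(3 * log 2 + 2 * log 5) ∧
    log (479 / 500 : ℝ) ≤ 3 * log 2 + log 3 - 2 * log 5 - 1 / 480 ∧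
    log (39 / 40 : ℝ) ≤ 3 * log 5 - 7 * log 2 - 1 / 625 ∧
    log (198467 / 27 : ℝ) ≤ log 2 + 6 * log 3 + log 5 + 1637 / 196830 ∧
    log (4918877 / 27 : ℝ) ≤ log 2 + 6 * log 3 + 3 * log 5 := by
  have s1 := log_smooth 2 2 2
  have s2 := log_smooth 0 2 1
  have s3 := log_smooth 3 1 0
  have s4 := log_smooth 3 0 1
  have s5 := log_smooth 4 0 4
  have s6 := log_smooth 3 0 2
  have s7 := log_smooth 0 0 2
  have s8 := log_smooth 0 0 3
  have s9 := log_smooth 7 0 0
  have s10 := log_smooth 1 6 1
  have s11 := log_smooth 1 6 3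
  have t0 := log_le_near (z := 21 / 500) (s := 24⁻¹) (by norm_num) (by norm_num)
  have t1 := log_le_near (z := 479 / 500) (s := 24 / 25) (by norm_num) (by norm_num)
  have t2 := log_le_near (z := 39 / 40) (s := 125 / 128) (by norm_num) (by norm_num)
  have t3 := log_le_near (z := 198467 / 27) (s := 7290) (by norm_num) (by norm_num)
  have t4 := log_le_near (z := 4918877 / 27) (s := 182250) (by norm_num) (by norm_num)
  rw [Real.log_div (x := 24) (y := 25) (by norm_num) (by norm_num)] at t1
  rw [Real.log_div (x := 125) (y := 128) (by norm_num) (by norm_num)] at t2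
  rw [Real.log_inv, show (21 / 500 : ℝ) / 24⁻¹ - 1 = 1 / 125 by norm_num] at t0
  rw [one_div 45, one_div 40, one_div 200, Real.log_inv, Real.log_inv, Real.log_inv]
  rw [show (2 : ℝ) ^ 2 * 3 ^ 2 * 5 ^ 2 = 900 by norm_num] at s1
  rw [show (2 : ℝ) ^ 0 * 3 ^ 2 * 5 ^ 1 = 45 by norm_num] at s2
  rw [show (2 : ℝ) ^ 3 * 3 ^ 1 * 5 ^ 0 = 24 by norm_num] at s3
  rw [show (2 : ℝ) ^ 3 * 3 ^ 0 * 5 ^ 1 = 40 by norm_num] at s4
  rw [show (2 : ℝ) ^ 4 * 3 ^ 0 * 5 ^ 4 = 10000 by norm_num] at s5
  rw [show (2 : ℝ) ^ 3 * 3 ^ 0 * 5 ^ 2 = 200 by norm_num] at s6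
  rw [show (2 : ℝ) ^ 0 * 3 ^ 0 * 5 ^ 2 = 25 by norm_num] at s7
  rw [show (2 : ℝ) ^ 0 * 3 ^ 0 * 5 ^ 3 = 125 by norm_num] at s8
  rw [show (2 : ℝ) ^ 7 * 3 ^ 0 * 5 ^ 0 = 128 by norm_num] at s9
  rw [show (2 : ℝ) ^ 1 * 3 ^ 6 * 5 ^ 1 = 7290 by norm_num] at s10
  rw [show (2 : ℝ) ^ 1 * 3 ^ 6 * 5 ^ 3 = 182250 by norm_num] at s11
  push_cast at s1 s2 s3 s4 s5 s6 s7 s8 s9 s10 s11
  refine ⟨?_, ?_, ?_, ?_, ?_, ?_, ?_, ?_, ?_, ?_⟩ <;> linarith

theorem wide (n k : ℕ) (hn : 200000 ≤ n) (hk : k ≤ n) (h : 479 * n ≤ 500 * k) :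
    ∃ B ∈ Psi n, haf k B < exp (50 - n / 4000) * haf k (J n) := by
  have hn0 : (0 : ℝ) < n := Nat.cast_pos.2 (by omega)
  have hp1 : (479 / 500 : ℝ) ≤ (k : ℝ) / n := by
    rw [div_le_div_iff₀ (by norm_num) hn0]
    exact_mod_cast (show 479 * n ≤ k * 500 by omega)
  have hp2 : (k : ℝ) / n ≤ 1 := (div_le_one hn0).2 (by exact_mod_cast hk)
  obtain ⟨l1, l2, l3, l4, l5, l6, l7, l8, l9, l10⟩ := logs
  have a2 := Real.log_two_gt_d9
  have b2 := Real.log_two_lt_d9
  have a3 := Real.log_three_gt_d9
  have b3 := Real.log_three_lt_d9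
  have a5 := Real.log_five_gt_d9
  have b5 := Real.log_five_lt_d9
  have t1 : tau (1 + 900 * (1 / 45) / 3) (900 * (1 / 3)) 3 = 198467 / 27 := by norm_num [tau]
  have t2 : tau (1 + 10000 * (1 / 200) / 3) (10000 * (1 / 3)) 3 = 4918877 / 27 := by norm_num [tau]
  have p1 : 0 ≤ log (198467 / 27 : ℝ) := Real.log_nonneg (by norm_num)
  have p2 : 0 ≤ log (4918877 / 27 : ℝ) := Real.log_nonneg (by norm_num)
  rcases le_total ((k : ℝ) / n) (39 / 40) with hp | hp
  · refine from_gap n k hn (by omega) hk (x := 900) (v := 1 / 45) (by norm_num) (by norm_num)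
      (by norm_num) (by rw [t1]; linarith)
      (gap_ge (by norm_num) hp1 hp (by norm_num) (by norm_num) ?_ ?_)
    · unfold gap negMulLog
      rw [t1, show (1 : ℝ) - 479 / 500 = 21 / 500 by norm_num]
      linarith
    · unfold gap negMulLog
      rw [t1, show (1 : ℝ) - 39 / 40 = 1 / 40 by norm_num]
      linarith
  · refine from_gap n k hn (by omega) hk (x := 10000) (v := 1 / 200) (by norm_num) (by norm_num)
      (by norm_num) (by rw [t2]; linarith)
      (gap_ge (by norm_num) hp hp2 (by norm_num) (by norm_num) ?_ ?_)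
    · unfold gap negMulLog
      rw [t2, show (1 : ℝ) - 39 / 40 = 1 / 40 by norm_num]
      linarith
    · unfold gap negMulLog
      rw [t2, sub_self, Real.log_one, Real.log_zero]
      linarith

theorem both (n k : ℕ) (hk : k ≤ n)
    (h : (3 ≤ n ∧ 139 * n ≤ 140 * k) ∨ (200000 ≤ n ∧ 479 * n ≤ 500 * k)) :
    ∃ B ∈ Psi n, haf k B < min 1 (exp (50 - n / 4000)) * haf k (J n) := by
  rcases le_total 200000 n with hn | hn
  · have hn' : (200000 : ℝ) ≤ n := by exact_mod_cast hn
    rw [min_eq_right (Real.exp_le_one_iff.2 (by linarith))]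
    exact wide n k hn hk (by omega)
  · have hn' : (n : ℝ) ≤ 200000 := by exact_mod_cast hn
    rw [min_eq_left (Real.one_le_exp (by linarith)), one_mul]
    rcases h with h | h
    · exact main n k h.1 hk (by omega)
    · obtain ⟨B, hB, h'⟩ := wide n k h.1 hk h.2
      have h1 : (200000 : ℝ) ≤ n := by exact_mod_cast h.1
      rw [show (50 : ℝ) - n / 4000 = 0 by linarith, Real.exp_zero, one_mul] at h'
      exact ⟨B, hB, h'⟩

end analysis

end Pool.Agent.Work.MP_33747a_co.Bar
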